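import Mathlib
import Pool.Agent.Q34.CSD.DualCount
import Pool.Agent.TH314.CSD.Scales

/-! # MP_edeaa2_an: the product of the forms and the product of the dual forms

Let `d ≥ 3` be a prime and let `F g` be the product of the `d` linear forms `l i` given by the rows
of `g`. The dual form `i` takes the value `⟨y, e i⟩` at the covector `y`, where `e i` is the column
`i` of `g⁻¹`, so `l k (e i) = δ_(k i)`; let `G g` be the product of the `d` dual forms. We consider
joint values `(F g (x 1), ..., F g (x m), G g (y 1), ..., G g (y l))` at integer points `x k` and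
integer covectors `y k`, where the `x k` are linearly independent, the `y k` are linearly
independent, `⟨y k', x k⟩ = 0` for all `k`, `k'`, and `m + l < d` (the span of the `x k` and the
rational subspace of codimension `l` containing it which is given by the `y k`). A set is called
`N`-thin if it is covered by countably many C¹ submanifolds of dimension at most `N`.

1. Let `g` be a counterexample to the conjecture of Cassels and Swinnerton-Dyer, `h₀` a recurrent
   form in its orbit closure. For every nonempty relatively open piece of the orbit closure of `h₀`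
   the joint values at `(x, y)` of the members of the piece are not `(m + l - 1)`-thin: they do not
   lie in countably many C¹ hypersurfaces of `ℝ ^ (m + l)`.
2. Let `F g` be bounded away from zero at the nonzero integer points and let `N < m + l`. Then
   `F g` is proportional to an integral form if and only if the closure of the set of the joint
   values of `g` at the images of `(x, y)` under the unimodular matrices is countable, and if and
   only if it is `N`-thin.
3. (All `d ≥ 3`.) If `F g` is bounded away from zero, so is `G g`, and if moreover `F g` is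
   proportional to an integral form, so is `G g`. -/

set_option autoImplicit false

open Filter Topology

namespace Pool.Agent.Results.MP_edeaa2_an.ProductsAndDualProducts

variable {d : ℕ}

/-- the linear form given by the row `i` of `g`, at an integer point -/
noncomputable def form (g : Matrix (Fin d) (Fin d) ℝ) (i : Fin d) (x : Fin d → ℤ) : ℝ :=
  ∑ j : Fin d, g i j * (x j : ℝ)

/-- the dual form `i`, at an integer covector: the pairing with the column `i` of `g⁻¹` -/
noncomputable def dualForm (g : Matrix (Fin d) (Fin d) ℝ) (i : Fin d) (y : Fin d → ℤ) : ℝ :=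
  ∑ j : Fin d, (y j : ℝ) * g⁻¹ j i

/-- the product of the linear forms given by the rows of `h`, at an integer point -/
noncomputable def F (h : Matrix (Fin d) (Fin d) ℝ) (x : Fin d → ℤ) : ℝ :=
  ∏ i : Fin d, form h i x

/-- the product of the dual forms, at an integer covector -/
noncomputable def G (h : Matrix (Fin d) (Fin d) ℝ) (y : Fin d → ℤ) : ℝ :=
  ∏ i : Fin d, dualForm h i y

/-- the product of the linear forms is proportional to a form with integer coefficients -/
def PropInt (h : Matrix (Fin d) (Fin d) ℝ) : Prop :=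
  ∃ c : ℝ, c ≠ 0 ∧ ∀ m : Fin d →₀ ℕ, ∃ z : ℤ, MvPolynomial.coeff m
    (c • (∏ i : Fin d, ∑ j : Fin d,
      MvPolynomial.C (h i j) * MvPolynomial.X j : MvPolynomial (Fin d) ℝ)) = (z : ℝ)

/-- the product of the linear forms is bounded away from zero at the nonzero integer points -/
def BoundedBelow (h : Matrix (Fin d) (Fin d) ℝ) : Prop :=
  ∃ ν : ℝ, 0 < ν ∧ ∀ x : Fin d → ℤ, x ≠ 0 → ν ≤ |F h x|

/-- The closure of the set of matrices `diag(a) g γ` with `a` positive of product one and `γ`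
integral of determinant `±1`. -/
def OrbitClosure (g : Matrix (Fin d) (Fin d) ℝ) : Set (Matrix (Fin d) (Fin d) ℝ) :=
  closure {h | ∃ (a : Fin d → ℝ) (γ : Matrix (Fin d) (Fin d) ℤ), (∀ i, 0 < a i) ∧ ∏ i, a i = 1 ∧
    |γ.det| = 1 ∧ h = Matrix.diagonal a * g * γ.map (Int.cast : ℤ → ℝ)}

/-- The orbit closure of `h` is minimal. -/
def Recurrent (h : Matrix (Fin d) (Fin d) ℝ) : Prop :=
  ∀ h' ∈ OrbitClosure h, h ∈ OrbitClosure h'

/-- `S` is a C¹ submanifold of dimension at most `n`, the set of zeros in an open set `W` of a C¹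
map `φ` to `ℝ ^ r` with surjective derivatives, where `dim V - r ≤ n`. -/
def Piece {V : Type*} [NormedAddCommGroup V] [NormedSpace ℝ V] (n : ℕ) (S : Set V) : Prop :=
  ∃ (r : ℕ) (W : Set V) (φ : V → Fin r → ℝ), Module.finrank ℝ V ≤ n + r ∧ IsOpen W ∧
    ContDiffOn ℝ 1 φ W ∧ (∀ x ∈ W, Function.Surjective (fderiv ℝ φ x)) ∧
    S = {x | x ∈ W ∧ φ x = 0}

/-- `E` is covered by countably many C¹ submanifolds of dimension at most `n`. -/
def Thin {V : Type*} [NormedAddCommGroup V] [NormedSpace ℝ V] (n : ℕ) (E : Set V) : Prop :=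
  ∃ S : ℕ → Set V, (∀ k, Piece n (S k)) ∧ E ⊆ ⋃ k, S k

/-- the joint values of the product at the points `x k` and of the dual product at the covectors
`y k` -/
noncomputable def joint {m l : ℕ} (x : Fin m → Fin d → ℤ) (y : Fin l → Fin d → ℤ)
    (g : Matrix (Fin d) (Fin d) ℝ) : (Fin m → ℝ) × (Fin l → ℝ) :=
  (fun k => F g (x k), fun k => G g (y k))

/-- The joint values at the images of `(x, y)` under the unimodular matrices `γ` (the image of `y k`
is the covector `y' k` with `⟨y' k, γ p⟩ = ⟨y k, p⟩`). -/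
def Values {m l : ℕ} (x : Fin m → Fin d → ℤ) (y : Fin l → Fin d → ℤ)
    (g : Matrix (Fin d) (Fin d) ℝ) : Set ((Fin m → ℝ) × (Fin l → ℝ)) :=
  {w | ∃ (γ : Matrix (Fin d) (Fin d) ℤ) (y' : Fin l → Fin d → ℤ), |γ.det| = 1 ∧
    (∀ k, Matrix.vecMul (y' k) γ = y k) ∧ w = joint (fun k => γ.mulVec (x k)) y' g}

/-- independent points and independent covectors which vanish at the points -/
structure Admissible {m l : ℕ} (x : Fin m → Fin d → ℤ) (y : Fin l → Fin d → ℤ) : Prop where
  points : LinearIndependent ℝ (fun (k : Fin m) (j : Fin d) => (x k j : ℝ))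
  covectors : LinearIndependent ℝ (fun (k : Fin l) (j : Fin d) => (y k j : ℝ))
  orth : ∀ k k', ∑ j, y k' j * x k j = 0
  lt : m + l < d

lemma thin_iff {V : Type*} [NormedAddCommGroup V] [NormedSpace ℝ V] (n : ℕ) (E : Set V) :
    Thin n E ↔ Q34.CSDThin.Thin n E := Iff.rfl

lemma closure_eq (g : Matrix (Fin d) (Fin d) ℝ) : OrbitClosure g = closure (H715R2.Orb g) := by
  unfold OrbitClosure H715R2.Orb
  congr 1
  ext h
  constructor
  · rintro ⟨a, γ, ha0, ha1, hγ, hh⟩
    exact ⟨a, γ, ha0, ha1, Int.isUnit_iff_abs_eq.2 hγ, hh⟩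
  · rintro ⟨a, γ, ha0, ha1, hγ, hh⟩
    exact ⟨a, γ, ha0, ha1, Int.isUnit_iff_abs_eq.1 hγ, hh⟩

lemma joint_eq {m l : ℕ} (x : Fin m → Fin d → ℤ) (y : Fin l → Fin d → ℤ)
    (g : Matrix (Fin d) (Fin d) ℝ) : joint x y g = Q34.CSDThin.jv x y g := rfl

lemma values_eq {m l : ℕ} (x : Fin m → Fin d → ℤ) (y : Fin l → Fin d → ℤ)
    (g : Matrix (Fin d) (Fin d) ℝ) : Values x y g = Q34.CSDThin.JVs x y g := by
  ext w
  constructor
  · rintro ⟨γ, y', hγ, hy, hw⟩
    exact ⟨γ, y', Int.isUnit_iff_abs_eq.2 hγ, hy, hw⟩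
  · rintro ⟨γ, y', hγ, hy, hw⟩
    exact ⟨γ, y', Int.isUnit_iff_abs_eq.1 hγ, hy, hw⟩

lemma recurrent_iff (h : Matrix (Fin d) (Fin d) ℝ) :
    Recurrent h ↔ TH314.CSD.Recurrent h := by
  unfold Recurrent TH314.CSD.Recurrent
  simp only [closure_eq]

lemma minB_of_recurrent {h : Matrix (Fin d) (Fin d) ℝ} (hh : TH314.CSD.Recurrent h) :
    Y327.MinB id (closure (H715R2.Orb h)) := by
  refine ⟨isClosed_closure, ⟨h, subset_closure (H715R2.mem_orb_self h)⟩,
    Y327.invB_of_inv (TH314.CSD.inv_closure h) id, fun Z hZ hZc hZne hZinv => ?_⟩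
  obtain ⟨h', hh'⟩ := hZne
  refine subset_antisymm hZ ?_
  have h1 : closure (H715R2.Orb h') ⊆ Z := by
    refine closure_minimal ?_ hZc
    rintro _ ⟨a, γ, ha0, ha1, hγ, rfl⟩
    exact hZinv h' hh' a γ ⟨ha0, ha1, fun i j hij => by rw [show i = j from hij]⟩ hγ
  exact (TH314.CSD.orb_closure_trans (hh h' (hZ hh'))).trans h1

/-- for prime `d` all rows are related -/
lemma rich_all (hd : d.Prime) (hd3 : 3 ≤ d) {g : Matrix (Fin d) (Fin d) ℝ} (hg : g.det ≠ 0)
    (hint : ¬ PropInt g) {ν : ℝ} (hν : 0 < ν) (hF : ∀ x : Fin d → ℤ, x ≠ 0 → ν ≤ |F g x|)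
    {M : Set (Matrix (Fin d) (Fin d) ℝ)} (hMg : M ⊆ closure (H715R2.Orb g))
    (hM : Y327.MinB id M) {h₀ : Matrix (Fin d) (Fin d) ℝ} (hh₀ : h₀ ∈ M) :
    Q34.CSDThin.Rich M (Y327.Sam h₀) d ∧ ∀ i j, Y327.Sam h₀ i j := by
  classical
  obtain ⟨s, hs1, hsd, hR⟩ := Q34.CSDThin.exists_rich hd3 hg hint hν hF hMg hM hh₀
  have hs : s = d := by
    rcases (Nat.dvd_prime hd).1 hsd with h | h
    · omega
    · exact h
  subst hs
  refine ⟨hR, fun i j => ?_⟩
  have h1 := hR.card i
  rw [Nat.card_eq_fintype_card, Fintype.card_subtype] at h1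
  have h2 : Finset.univ.filter (fun j => Y327.Sam h₀ i j) = Finset.univ := by
    refine Finset.eq_univ_of_card _ ?_
    rw [h1, Fintype.card_fin]
  have h3 : j ∈ Finset.univ.filter (fun j => Y327.Sam h₀ i j) := by
    rw [h2]
    exact Finset.mem_univ j
  exact (Finset.mem_filter.1 h3).2

lemma piece_joint (hd : d.Prime) (hd3 : 3 ≤ d) {g : Matrix (Fin d) (Fin d) ℝ} (hg : g.det ≠ 0)
    (hint : ¬ PropInt g) {ν : ℝ} (hν : 0 < ν) (hF : ∀ x : Fin d → ℤ, x ≠ 0 → ν ≤ |F g x|)
    {M : Set (Matrix (Fin d) (Fin d) ℝ)} (hMg : M ⊆ closure (H715R2.Orb g))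
    (hM : Y327.MinB id M) {O : Set (Matrix (Fin d) (Fin d) ℝ)} (hO : IsOpen O)
    (hne : (O ∩ M).Nonempty) {m l : ℕ} {x : Fin m → Fin d → ℤ} {y : Fin l → Fin d → ℤ}
    (hxy : Admissible x y) {N : ℕ} (hN : N < m + l) :
    ¬ Q34.CSDThin.Thin N {w | ∃ g ∈ O ∩ M, w = Q34.CSDThin.jv x y g} := by
  obtain ⟨h₀, hh₀⟩ := hM.ne
  obtain ⟨hR, hall⟩ := rich_all hd hd3 hg hint hν hF hMg hM hh₀
  exact hR.not_thin_jv (by omega) (abs_pos.2 hg) hν
    (fun h hh => H715R2.abs_det_closure (hMg hh)) (fun h hh => H715R2.hasNu_closure hF (hMg hh))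
    hall hO hne hxy.lt hxy.points hxy.covectors (fun k k' => hxy.orth k k') hN

theorem result (d : ℕ) (hd3 : 3 ≤ d) :
    -- 1. the pieces of a minimal set
    (d.Prime → ∀ g : Matrix (Fin d) (Fin d) ℝ, g.det ≠ 0 → ¬ PropInt g → BoundedBelow g →
      ∀ h₀ ∈ OrbitClosure g, Recurrent h₀ →
        ∀ U : Set (Matrix (Fin d) (Fin d) ℝ), IsOpen U → (U ∩ OrbitClosure h₀).Nonempty →
          ∀ (m l : ℕ) (x : Fin m → Fin d → ℤ) (y : Fin l → Fin d → ℤ), Admissible x y →
            ∀ N < m + l, ¬ Thin N {w | ∃ h ∈ U ∩ OrbitClosure h₀, w = joint x y h}) ∧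
    -- 2. criteria
    (d.Prime → ∀ g : Matrix (Fin d) (Fin d) ℝ, g.det ≠ 0 → BoundedBelow g →
      ∀ (m l : ℕ) (x : Fin m → Fin d → ℤ) (y : Fin l → Fin d → ℤ), Admissible x y →
        ∀ N < m + l,
          (PropInt g ↔ (closure (Values x y g)).Countable) ∧
          (PropInt g ↔ Thin N (closure (Values x y g)))) ∧
    -- 3. the dual product
    (∀ g : Matrix (Fin d) (Fin d) ℝ, g.det ≠ 0 → BoundedBelow g →
      (∃ ν : ℝ, 0 < ν ∧ ∀ y : Fin d → ℤ, y ≠ 0 → ν ≤ |G g y|) ∧
      (PropInt g → PropInt (g⁻¹).transpose)) := by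
  refine ⟨?_, ?_, ?_⟩
  · rintro hd g hg hint ⟨ν, hν, hF⟩ h₀ hh₀ hrec U hU hUM m l x y hxy N hN
    rw [closure_eq] at hh₀
    have hM := minB_of_recurrent ((recurrent_iff h₀).1 hrec)
    have hMg : closure (H715R2.Orb h₀) ⊆ closure (H715R2.Orb g) :=
      TH314.CSD.orb_closure_trans hh₀
    rw [closure_eq] at hUM ⊢
    exact piece_joint hd hd3 hg hint hν hF hMg hM hU hUM hxy hN
  · rintro hd g hg ⟨ν, hν, hF⟩ m l x y hxy N hN
    rw [values_eq]
    have h1 : PropInt g → (closure (Q34.CSDThin.JVs x y g)).Countable := fun hP =>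
      Q34.CSDThin.countable_jvs hd3 hg hν hF hP x y
    have h2 : Q34.CSDThin.Thin N (closure (Q34.CSDThin.JVs x y g)) → PropInt g := by
      intro hthin
      by_contra hint
      obtain ⟨M, hMg, hM⟩ := Y327.exists_minB (by omega) id (abs_pos.2 hg) hν isClosed_closure
        ⟨g, subset_closure (H715R2.mem_orb_self _)⟩
        (Y327.invB_of_inv (TH314.CSD.inv_closure g) id)
        (fun _ hh => H715R2.abs_det_closure hh) (fun _ hh => H715R2.hasNu_closure hF hh)
      refine piece_joint hd hd3 hg hint hν hF hMg hM isOpen_univ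
        (by rw [Set.univ_inter]; exact hM.ne) hxy hN (hthin.subset ?_)
      rintro w ⟨h, hh, rfl⟩
      refine Q34.CSDThin.jv_mem (hMg hh.2) ?_ x y
      rw [← abs_ne_zero, H715R2.abs_det_closure (hMg hh.2), abs_ne_zero]
      exact hg
    have h3 : (closure (Q34.CSDThin.JVs x y g)).Countable →
        Q34.CSDThin.Thin N (closure (Q34.CSDThin.JVs x y g)) := fun hC =>
      Q34.CSDThin.thin_countable hC N
    exact ⟨⟨h1, fun hC => h2 (h3 hC)⟩, ⟨fun hP => h3 (h1 hP), h2⟩⟩
  · rintro g hg ⟨ν, hν, hF⟩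
    exact ⟨Q34.CSDThin.dual_nu (by omega) (abs_pos.2 hg) hν rfl hF, fun hP =>
      Q34.CSDThin.propInt_dual hd3 hg hν hF hP⟩

end Pool.Agent.Results.MP_edeaa2_an.ProductsAndDualProducts
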