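import Mathlib
import Pool.Agent.Q34.CSD.SectCount
import Pool.Agent.TH314.CSD.Scales

/-! # MP_edeaa2_an: restrictions of the product of the forms to sublattices

Let `d ≥ 3` be a prime and let `F g` be the product of the `d` linear forms `l i` given by the rows
of `g`. For integer points `x 0, ..., x e` the restriction of `F g` to their span is
`F g (∑ t_k x_k) = F g (x 0) ∏ i (t_0 + ∑ j ρ_(j,i) t_(j+1))` with the ratios
`ρ_(j,i) = l i (x (j + 1)) / l i (x 0)`; we call the point `(F g (x 0), ρ)` of the space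
`ℝ × ℝ ^ (e d)` the section of `g` at `x`. A set is called `n`-thin if it is covered by countably
many C¹ submanifolds of dimension at most `n`.

1. Let `g` be a counterexample to the conjecture of Cassels and Swinnerton-Dyer, let `h₀` be a
   recurrent form in its orbit closure. If `e + 1 < d` then for all linearly independent integer
   points `x 0, ..., x e` and every nonempty relatively open piece of the orbit closure of `h₀` the
   sections at `x` of the forms of the piece are not `(e d)`-thin: they do not lie in countably many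
   C¹ hypersurfaces of the space of all sections.
2. Let `F g` be bounded away from zero at the nonzero integer points, `e + 1 ≤ d`. Then `F g` is
   proportional to an integral form if and only if the closure of the set of all sections at `e + 1`
   members of bases of `ℤ ^ d` is countable, and if and only if it is `n`-thin; here `n` is any
   number `n ≤ e d` if `e + 1 < d`, and any `n < e d` if `e + 1 = d` (then the sections lie in the
   hypersurface on which the determinant has a given absolute value). -/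

set_option autoImplicit false

open Filter Topology

namespace Pool.Agent.Results.MP_edeaa2_an.RestrictionsToSublattices

variable {d : ℕ}

/-- the linear form given by the row `i` of `g`, at an integer point -/
noncomputable def form (g : Matrix (Fin d) (Fin d) ℝ) (i : Fin d) (x : Fin d → ℤ) : ℝ :=
  ∑ j : Fin d, g i j * (x j : ℝ)

/-- the product of the linear forms given by the rows of `h`, at an integer point -/
noncomputable def F (h : Matrix (Fin d) (Fin d) ℝ) (x : Fin d → ℤ) : ℝ :=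
  ∏ i : Fin d, form h i x

/-- the product of the linear forms is proportional to a form with integer coefficients -/
def PropInt (h : Matrix (Fin d) (Fin d) ℝ) : Prop :=
  ∃ c : ℝ, c ≠ 0 ∧ ∀ m : Fin d →₀ ℕ, ∃ z : ℤ, MvPolynomial.coeff m
    (c • (∏ i : Fin d, ∑ j : Fin d,
      MvPolynomial.C (h i j) * MvPolynomial.X j : MvPolynomial (Fin d) ℝ)) = (z : ℝ)

/-- the product of the linear forms is bounded away from zero at the nonzero integer points -/
def BoundedBelow (h : Matrix (Fin d) (Fin d) ℝ) : Prop :=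
  ∃ ν : ℝ, 0 < ν ∧ ∀ x : Fin d → ℤ, x ≠ 0 → ν ≤ |F h x|

/-- The closure of the set of matrices `diag(a) g γ` with `a` positive of product one and `γ`
integral of determinant `±1`. -/
def OrbitClosure (g : Matrix (Fin d) (Fin d) ℝ) : Set (Matrix (Fin d) (Fin d) ℝ) :=
  closure {h | ∃ (a : Fin d → ℝ) (γ : Matrix (Fin d) (Fin d) ℤ), (∀ i, 0 < a i) ∧ ∏ i, a i = 1 ∧
    |γ.det| = 1 ∧ h = Matrix.diagonal a * g * γ.map (Int.cast : ℤ → ℝ)}

/-- The orbit closure of `h` is minimal. -/
def Recurrent (h : Matrix (Fin d) (Fin d) ℝ) : Prop :=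
  ∀ h' ∈ OrbitClosure h, h ∈ OrbitClosure h'

/-- `S` is a C¹ submanifold of dimension at most `n`, the set of zeros in an open set `W` of a C¹
map `φ` to `ℝ ^ r` with surjective derivatives, where `dim V - r ≤ n`. -/
def Piece {V : Type*} [NormedAddCommGroup V] [NormedSpace ℝ V] (n : ℕ) (S : Set V) : Prop :=
  ∃ (r : ℕ) (W : Set V) (φ : V → Fin r → ℝ), Module.finrank ℝ V ≤ n + r ∧ IsOpen W ∧
    ContDiffOn ℝ 1 φ W ∧ (∀ x ∈ W, Function.Surjective (fderiv ℝ φ x)) ∧
    S = {x | x ∈ W ∧ φ x = 0}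

/-- `E` is covered by countably many C¹ submanifolds of dimension at most `n`. -/
def Thin {V : Type*} [NormedAddCommGroup V] [NormedSpace ℝ V] (n : ℕ) (E : Set V) : Prop :=
  ∃ S : ℕ → Set V, (∀ k, Piece n (S k)) ∧ E ⊆ ⋃ k, S k

/-- The section of `g` at `x 0, ..., x e`: the restriction of `F g` to their span, given by its
value at `x 0` and the ratios of the values of the linear forms. -/
noncomputable def sec {e : ℕ} (g : Matrix (Fin d) (Fin d) ℝ) (x : Fin (e + 1) → Fin d → ℤ) :
    ℝ × (Fin e → Fin d → ℝ) :=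
  (F g (x 0), fun j i => form g i (x j.succ) / form g i (x 0))

/-- the sections of `g` at `e + 1` different members of a basis of `ℤ ^ d` -/
def Sections (e : ℕ) (g : Matrix (Fin d) (Fin d) ℝ) : Set (ℝ × (Fin e → Fin d → ℝ)) :=
  {w | ∃ (γ : Matrix (Fin d) (Fin d) ℤ) (c : Fin (e + 1) → Fin d), |γ.det| = 1 ∧
    Function.Injective c ∧ w = sec g (fun k i => γ i (c k))}

lemma thin_iff {V : Type*} [NormedAddCommGroup V] [NormedSpace ℝ V] (n : ℕ) (E : Set V) :
    Thin n E ↔ Q34.CSDThin.Thin n E := Iff.rfl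

lemma closure_eq (g : Matrix (Fin d) (Fin d) ℝ) : OrbitClosure g = closure (H715R2.Orb g) := by
  unfold OrbitClosure H715R2.Orb
  congr 1
  ext h
  constructor
  · rintro ⟨a, γ, ha0, ha1, hγ, hh⟩
    exact ⟨a, γ, ha0, ha1, Int.isUnit_iff_abs_eq.2 hγ, hh⟩
  · rintro ⟨a, γ, ha0, ha1, hγ, hh⟩
    exact ⟨a, γ, ha0, ha1, Int.isUnit_iff_abs_eq.1 hγ, hh⟩

lemma sections_eq (e : ℕ) (g : Matrix (Fin d) (Fin d) ℝ) :
    Sections e g = Q34.CSDThin.Sects e g := by
  ext w
  constructor
  · rintro ⟨γ, c, hγ, hc, hw⟩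
    exact ⟨γ, c, Int.isUnit_iff_abs_eq.2 hγ, hc, hw⟩
  · rintro ⟨γ, c, hγ, hc, hw⟩
    exact ⟨γ, c, Int.isUnit_iff_abs_eq.1 hγ, hc, hw⟩

lemma recurrent_iff (h : Matrix (Fin d) (Fin d) ℝ) :
    Recurrent h ↔ TH314.CSD.Recurrent h := by
  unfold Recurrent TH314.CSD.Recurrent
  simp only [closure_eq]

lemma minB_of_recurrent {h : Matrix (Fin d) (Fin d) ℝ} (hh : TH314.CSD.Recurrent h) :
    Y327.MinB id (closure (H715R2.Orb h)) := by
  refine ⟨isClosed_closure, ⟨h, subset_closure (H715R2.mem_orb_self h)⟩,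
    Y327.invB_of_inv (TH314.CSD.inv_closure h) id, fun Z hZ hZc hZne hZinv => ?_⟩
  obtain ⟨h', hh'⟩ := hZne
  refine subset_antisymm hZ ?_
  have h1 : closure (H715R2.Orb h') ⊆ Z := by
    refine closure_minimal ?_ hZc
    rintro _ ⟨a, γ, ha0, ha1, hγ, rfl⟩
    exact hZinv h' hh' a γ ⟨ha0, ha1, fun i j hij => by rw [show i = j from hij]⟩ hγ
  exact (TH314.CSD.orb_closure_trans (hh h' (hZ hh'))).trans h1

/-- a recurrent form in the orbit closure -/
lemma exists_recurrent (hd : 0 < d) {g : Matrix (Fin d) (Fin d) ℝ} (hg : g.det ≠ 0) {ν : ℝ}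
    (hν : 0 < ν) (hF : ∀ x : Fin d → ℤ, x ≠ 0 → ν ≤ |F g x|) :
    ∃ M ⊆ closure (H715R2.Orb g), Y327.MinB id M :=
  Y327.exists_minB hd id (abs_pos.2 hg) hν isClosed_closure
    ⟨g, subset_closure (H715R2.mem_orb_self g)⟩
    (Y327.invB_of_inv (TH314.CSD.inv_closure g) id)
    (fun _ hh => H715R2.abs_det_closure hh) (fun _ hh => H715R2.hasNu_closure hF hh)

/-- for prime `d` all rows are related -/
lemma rich_all (hd : d.Prime) (hd3 : 3 ≤ d) {g : Matrix (Fin d) (Fin d) ℝ} (hg : g.det ≠ 0)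
    (hint : ¬ PropInt g) {ν : ℝ} (hν : 0 < ν) (hF : ∀ x : Fin d → ℤ, x ≠ 0 → ν ≤ |F g x|)
    {M : Set (Matrix (Fin d) (Fin d) ℝ)} (hMg : M ⊆ closure (H715R2.Orb g))
    (hM : Y327.MinB id M) {h₀ : Matrix (Fin d) (Fin d) ℝ} (hh₀ : h₀ ∈ M) :
    Q34.CSDThin.Rich M (Y327.Sam h₀) d ∧ ∀ i j, Y327.Sam h₀ i j := by
  classical
  obtain ⟨s, hs1, hsd, hR⟩ := Q34.CSDThin.exists_rich hd3 hg hint hν hF hMg hM hh₀
  have hs : s = d := by
    rcases (Nat.dvd_prime hd).1 hsd with h | h
    · omega
    · exact h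
  subst hs
  refine ⟨hR, fun i j => ?_⟩
  have h1 := hR.card i
  rw [Nat.card_eq_fintype_card, Fintype.card_subtype] at h1
  have h2 : Finset.univ.filter (fun j => Y327.Sam h₀ i j) = Finset.univ := by
    refine Finset.eq_univ_of_card _ ?_
    rw [h1, Fintype.card_fin]
  have h3 : j ∈ Finset.univ.filter (fun j => Y327.Sam h₀ i j) := by
    rw [h2]
    exact Finset.mem_univ j
  exact (Finset.mem_filter.1 h3).2

lemma entries_ne {M : Set (Matrix (Fin d) (Fin d) ℝ)} {R : Fin d → Fin d → Prop} {s : ℕ}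
    (hR : Q34.CSDThin.Rich M R s) {h : Matrix (Fin d) (Fin d) ℝ} (hh : h ∈ M) (i k : Fin d) :
    h i k ≠ 0 := by
  intro h0
  refine hR.nz h hh (Pi.single k 1) (by simp) i ?_
  rw [Finset.sum_eq_single k]
  · simp [h0]
  · intro b _ hb
    simp [Pi.single_eq_of_ne hb]
  · intro h1
    exact absurd (Finset.mem_univ _) h1

/-- the closure of the sections of a counterexample -/
lemma not_thin_closure (hd : d.Prime) (hd3 : 3 ≤ d) {g : Matrix (Fin d) (Fin d) ℝ}
    (hg : g.det ≠ 0) (hint : ¬ PropInt g) {ν : ℝ} (hν : 0 < ν)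
    (hF : ∀ x : Fin d → ℤ, x ≠ 0 → ν ≤ |F g x|) {e n : ℕ}
    (hen : (e + 1 < d ∧ n ≤ e * d) ∨ (e + 1 = d ∧ n < e * d)) :
    ¬ Q34.CSDThin.Thin n (closure (Q34.CSDThin.Sects e g)) := by
  obtain ⟨M, hMg, hM⟩ := exists_recurrent (by omega) hg hν hF
  obtain ⟨h₀, hh₀⟩ := hM.ne
  obtain ⟨hR, hall⟩ := rich_all hd hd3 hg hint hν hF hMg hM hh₀
  intro hthin
  rcases hen with ⟨he, hn⟩ | ⟨he, hn⟩
  · set c : Fin (e + 1) → Fin d := Fin.castLE he.le with hc
    have hcinj : Function.Injective c := Fin.castLE_injective he.le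
    have hx : LinearIndependent ℝ (fun (k : Fin (e + 1)) (j : Fin d) =>
        (((Pi.single (c k) 1 : Fin d → ℤ) j : ℤ) : ℝ)) := by
      rw [Fintype.linearIndependent_iff]
      intro b hb k
      have h1 := congrFun hb (c k)
      rw [Finset.sum_apply, Finset.sum_eq_single k] at h1
      · simpa using h1
      · intro j _ hj
        have h2 : c k ≠ c j := fun h => hj (hcinj h).symm
        simp [Pi.single_eq_of_ne h2]
      · intro h1
        exact absurd (Finset.mem_univ _) h1
    refine hR.not_thin_sec (by omega) hall isOpen_univ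
      (by rw [Set.univ_inter]; exact hM.ne) he hn hx (hthin.subset ?_)
    rintro w ⟨h, hh, rfl⟩
    exact Q34.CSDThin.sec_mem (hMg hh.2) hcinj fun i => entries_ne hR hh.2 i _
  · subst he
    refine hR.not_thin_top hall isOpen_univ
      (by rw [Set.univ_inter]; exact hM.ne) hn (hthin.subset ?_)
    rintro w ⟨h, hh, rfl⟩
    exact Q34.CSDThin.sec_mem (c := id) (hMg hh.2) Function.injective_id
      fun i => entries_ne hR hh.2 i _

theorem result (d : ℕ) (hd : d.Prime) (hd3 : 3 ≤ d) :
    -- 1. the pieces of a minimal set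
    (∀ g : Matrix (Fin d) (Fin d) ℝ, g.det ≠ 0 → ¬ PropInt g → BoundedBelow g →
      ∀ h₀ ∈ OrbitClosure g, Recurrent h₀ →
        ∀ U : Set (Matrix (Fin d) (Fin d) ℝ), IsOpen U → (U ∩ OrbitClosure h₀).Nonempty →
          ∀ e n, e + 1 < d → n ≤ e * d → ∀ x : Fin (e + 1) → Fin d → ℤ,
            LinearIndependent ℝ (fun (k : Fin (e + 1)) (j : Fin d) => (x k j : ℝ)) →
            ¬ Thin n {w | ∃ h ∈ U ∩ OrbitClosure h₀, w = sec h x}) ∧
    -- 2. criteria
    (∀ g : Matrix (Fin d) (Fin d) ℝ, g.det ≠ 0 → BoundedBelow g →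
      ∀ e n, (e + 1 < d ∧ n ≤ e * d) ∨ (e + 1 = d ∧ n < e * d) →
        (PropInt g ↔ (closure (Sections e g)).Countable) ∧
        (PropInt g ↔ Thin n (closure (Sections e g)))) := by
  refine ⟨?_, ?_⟩
  · rintro g hg hint ⟨ν, hν, hF⟩ h₀ hh₀ hrec U hU hUM e n he hn x hx
    rw [closure_eq] at hh₀
    have hM := minB_of_recurrent ((recurrent_iff h₀).1 hrec)
    have hMg : closure (H715R2.Orb h₀) ⊆ closure (H715R2.Orb g) :=
      TH314.CSD.orb_closure_trans hh₀
    obtain ⟨hR, hall⟩ := rich_all hd hd3 hg hint hν hF hMg hM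
      (subset_closure (H715R2.mem_orb_self h₀))
    rw [closure_eq] at hUM ⊢
    exact hR.not_thin_sec (by omega) hall hU hUM he hn hx
  · rintro g hg ⟨ν, hν, hF⟩ e n hen
    rw [sections_eq]
    have h1 : PropInt g → (closure (Q34.CSDThin.Sects e g)).Countable := fun hP =>
      Q34.CSDThin.countable_sects hP hν hF
    have h2 : Q34.CSDThin.Thin n (closure (Q34.CSDThin.Sects e g)) → PropInt g := by
      intro hthin
      by_contra hint
      exact not_thin_closure hd hd3 hg hint hν hF hen hthin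
    have h3 : (closure (Q34.CSDThin.Sects e g)).Countable →
        Q34.CSDThin.Thin n (closure (Q34.CSDThin.Sects e g)) := fun hC =>
      Q34.CSDThin.thin_countable hC n
    exact ⟨⟨h1, fun hC => h2 (h3 hC)⟩, ⟨fun hP => h3 (h1 hP), h2⟩⟩

end Pool.Agent.Results.MP_edeaa2_an.RestrictionsToSublattices
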