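import Mathlib
import Pool.Agent.Q34.CSD.ThinRich
import Pool.Agent.TH314.CSD.Scales

/-! # MP_edeaa2_an: the bad forms are not contained in countably many C¹ submanifolds

Let `d ≥ 3` and let `p` be the smallest prime factor of `d`. A set is called `n`-thin if it is
covered by countably many C¹ submanifolds of dimension at most `n`.

1. Let `g` be a counterexample to the conjecture of Cassels and Swinnerton-Dyer, let `h₀` be a
   recurrent form in its orbit closure, and let `M` be the orbit closure of `h₀`. There is a divisor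
   `s > 1` of `d` such that every nonempty relatively open piece of `M` has the following properties.
   (a) The piece is not `(d s - 2)`-thin (if `d` is prime, then `s = d`, and `M` lies in the
   hypersurface of dimension `d² - 1` on which the absolute value of the determinant is constant).
   (b) For all `m < s` there are `m` of the unit vectors such that the set of the `m`-tuples of
   values at these vectors of the forms of the piece is not `(m - 1)`-thin. (c) If `s = d` this is
   true for all linearly independent integer points.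
2. Let `F g` be bounded away from zero at the nonzero integer points. Then it is proportional to an
   integral form if and only if the orbit closure of `g` is `(d p - 2)`-thin, and, for `1 ≤ m < p`,
   if and only if the closure of the set of `m`-tuples of values of `F g` at `m` members of a basis
   of `ℤ ^ d` is `(m - 1)`-thin.
3. The conjecture in dimension `d` holds if and only if the set of all `g` for which `F g` is
   bounded away from zero at the nonzero integer points is `(d p - 1)`-thin. For prime `d`: if the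
   conjecture holds, then these `g` lie in countably many C¹ submanifolds of dimension `d`, and if
   it fails they do not lie in countably many C¹ hypersurfaces of the space of all matrices. -/

set_option autoImplicit false

open Filter Topology

namespace Pool.Agent.Results.MP_edeaa2_an.SmoothThinness

variable {d : ℕ}

/-- the product of the linear forms given by the rows of `h`, at an integer point -/
noncomputable def F (h : Matrix (Fin d) (Fin d) ℝ) (x : Fin d → ℤ) : ℝ :=
  ∏ i : Fin d, ∑ j : Fin d, h i j * (x j : ℝ)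

/-- the product of the linear forms is proportional to a form with integer coefficients -/
def PropInt (h : Matrix (Fin d) (Fin d) ℝ) : Prop :=
  ∃ c : ℝ, c ≠ 0 ∧ ∀ m : Fin d →₀ ℕ, ∃ z : ℤ, MvPolynomial.coeff m
    (c • (∏ i : Fin d, ∑ j : Fin d,
      MvPolynomial.C (h i j) * MvPolynomial.X j : MvPolynomial (Fin d) ℝ)) = (z : ℝ)

/-- the product of the linear forms is bounded away from zero at the nonzero integer points -/
def BoundedBelow (h : Matrix (Fin d) (Fin d) ℝ) : Prop :=
  ∃ ν : ℝ, 0 < ν ∧ ∀ x : Fin d → ℤ, x ≠ 0 → ν ≤ |F h x|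

/-- The closure of the set of matrices `diag(a) g γ` with `a` positive of product one and `γ`
integral of determinant `±1`. -/
def OrbitClosure (g : Matrix (Fin d) (Fin d) ℝ) : Set (Matrix (Fin d) (Fin d) ℝ) :=
  closure {h | ∃ (a : Fin d → ℝ) (γ : Matrix (Fin d) (Fin d) ℤ), (∀ i, 0 < a i) ∧ ∏ i, a i = 1 ∧
    |γ.det| = 1 ∧ h = Matrix.diagonal a * g * γ.map (Int.cast : ℤ → ℝ)}

/-- The orbit closure of `h` is minimal. -/
def Recurrent (h : Matrix (Fin d) (Fin d) ℝ) : Prop :=
  ∀ h' ∈ OrbitClosure h, h ∈ OrbitClosure h'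

/-- `S` is a C¹ submanifold of dimension at most `n`, the set of zeros in an open set `W` of a C¹
map `φ` to `ℝ ^ r` with surjective derivatives, where `dim V - r ≤ n`. -/
def Piece {V : Type*} [NormedAddCommGroup V] [NormedSpace ℝ V] (n : ℕ) (S : Set V) : Prop :=
  ∃ (r : ℕ) (W : Set V) (φ : V → Fin r → ℝ), Module.finrank ℝ V ≤ n + r ∧ IsOpen W ∧
    ContDiffOn ℝ 1 φ W ∧ (∀ x ∈ W, Function.Surjective (fderiv ℝ φ x)) ∧
    S = {x | x ∈ W ∧ φ x = 0}

/-- `E` is covered by countably many C¹ submanifolds of dimension at most `n`. -/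
def Thin {V : Type*} [NormedAddCommGroup V] [NormedSpace ℝ V] (n : ℕ) (E : Set V) : Prop :=
  ∃ S : ℕ → Set V, (∀ k, Piece n (S k)) ∧ E ⊆ ⋃ k, S k

/-- the `m`-tuples of values of `F g` at `m` different members of a basis of `ℤ ^ d` -/
def ValueTuples (m : ℕ) (g : Matrix (Fin d) (Fin d) ℝ) : Set (Fin m → ℝ) :=
  {w | ∃ (γ : Matrix (Fin d) (Fin d) ℤ) (c : Fin m → Fin d), |γ.det| = 1 ∧
    Function.Injective c ∧ ∀ k, w k = F g (fun i => γ i (c k))}

/-- a set of matrices as a set in the normed space of all tuples of rows -/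
def rows (E : Set (Matrix (Fin d) (Fin d) ℝ)) : Set (Fin d → Fin d → ℝ) :=
  {x | Matrix.of x ∈ E}

lemma thin_iff {V : Type*} [NormedAddCommGroup V] [NormedSpace ℝ V] (n : ℕ) (E : Set V) :
    Thin n E ↔ Q34.CSDThin.Thin n E := Iff.rfl

lemma closure_eq (g : Matrix (Fin d) (Fin d) ℝ) : OrbitClosure g = closure (H715R2.Orb g) := by
  unfold OrbitClosure H715R2.Orb
  congr 1
  ext h
  constructor
  · rintro ⟨a, γ, ha0, ha1, hγ, hh⟩
    exact ⟨a, γ, ha0, ha1, Int.isUnit_iff_abs_eq.2 hγ, hh⟩
  · rintro ⟨a, γ, ha0, ha1, hγ, hh⟩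
    exact ⟨a, γ, ha0, ha1, Int.isUnit_iff_abs_eq.1 hγ, hh⟩

lemma tuples_eq (m : ℕ) (g : Matrix (Fin d) (Fin d) ℝ) :
    ValueTuples m g = Q34.CSDThin.Tuples m g := by
  ext w
  constructor
  · rintro ⟨γ, c, hγ, hc, hw⟩
    exact ⟨γ, c, Int.isUnit_iff_abs_eq.2 hγ, hc, hw⟩
  · rintro ⟨γ, c, hγ, hc, hw⟩
    exact ⟨γ, c, Int.isUnit_iff_abs_eq.1 hγ, hc, hw⟩

lemma recurrent_iff (h : Matrix (Fin d) (Fin d) ℝ) :
    Recurrent h ↔ TH314.CSD.Recurrent h := by
  unfold Recurrent TH314.CSD.Recurrent
  simp only [closure_eq]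

lemma minB_of_recurrent {h : Matrix (Fin d) (Fin d) ℝ} (hh : TH314.CSD.Recurrent h) :
    Y327.MinB id (closure (H715R2.Orb h)) := by
  refine ⟨isClosed_closure, ⟨h, subset_closure (H715R2.mem_orb_self h)⟩,
    Y327.invB_of_inv (TH314.CSD.inv_closure h) id, fun Z hZ hZc hZne hZinv => ?_⟩
  obtain ⟨h', hh'⟩ := hZne
  refine subset_antisymm hZ ?_
  have h1 : closure (H715R2.Orb h') ⊆ Z := by
    refine closure_minimal ?_ hZc
    rintro _ ⟨a, γ, ha0, ha1, hγ, rfl⟩
    exact hZinv h' hh' a γ ⟨ha0, ha1, fun i j hij => by rw [show i = j from hij]⟩ hγ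
  exact (TH314.CSD.orb_closure_trans (hh h' (hZ hh'))).trans h1

/-- a recurrent form in the orbit closure -/
lemma exists_recurrent (hd : 0 < d) {g : Matrix (Fin d) (Fin d) ℝ} (hg : g.det ≠ 0) {ν : ℝ}
    (hν : 0 < ν) (hF : ∀ x : Fin d → ℤ, x ≠ 0 → ν ≤ |F g x|) :
    ∃ M ⊆ closure (H715R2.Orb g), Y327.MinB id M :=
  Y327.exists_minB hd id (abs_pos.2 hg) hν isClosed_closure
    ⟨g, subset_closure (H715R2.mem_orb_self g)⟩
    (Y327.invB_of_inv (TH314.CSD.inv_closure g) id)
    (fun _ hh => H715R2.abs_det_closure hh) (fun _ hh => H715R2.hasNu_closure hF hh)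

/-- a rich set in the orbit closure of a counterexample -/
lemma exists_rich (hd : 3 ≤ d) {g : Matrix (Fin d) (Fin d) ℝ} (hg : g.det ≠ 0)
    (hint : ¬ PropInt g) {ν : ℝ} (hν : 0 < ν) (hF : ∀ x : Fin d → ℤ, x ≠ 0 → ν ≤ |F g x|) :
    ∃ M ⊆ closure (H715R2.Orb g), ∃ h₀ : Matrix (Fin d) (Fin d) ℝ, ∃ s : ℕ, d.minFac ≤ s ∧
      Q34.CSDThin.Rich M (Y327.Sam h₀) s := by
  obtain ⟨M, hMg, hM⟩ := exists_recurrent (by omega) hg hν hF
  obtain ⟨h₀, hh₀⟩ := hM.ne
  obtain ⟨s, hs1, hsd, hR⟩ := Q34.CSDThin.exists_rich hd hg hint hν hF hMg hM hh₀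
  exact ⟨M, hMg, h₀, s, Nat.minFac_le_of_dvd hs1 hsd, hR⟩

/-- values at unit vectors in a piece of a rich set -/
lemma not_thin_unit (hd : 0 < d) {M : Set (Matrix (Fin d) (Fin d) ℝ)}
    {h₀ : Matrix (Fin d) (Fin d) ℝ} {s : ℕ} (hR : Q34.CSDThin.Rich M (Y327.Sam h₀) s)
    {U : Set (Matrix (Fin d) (Fin d) ℝ)} (hU : IsOpen U) (hne : (U ∩ M).Nonempty) {m n : ℕ}
    (hm : m < s) (hnm : n < m) : ∃ c : Fin m → Fin d, Function.Injective c ∧
      ¬ Thin n {w : Fin m → ℝ | ∃ h ∈ U ∩ M, ∀ k, w k = F h (Pi.single (c k) 1)} := by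
  obtain ⟨h₁, hh₁⟩ := hne
  set i₀ : Fin d := ⟨0, hd⟩ with hi₀
  obtain ⟨c, hc, hli⟩ := Q34.CSDThin.exists_columns (hR.det _ hh₁.2) (Y327.Sam h₀ i₀) (m := m)
    (by rw [hR.card]; exact hm.le)
  refine ⟨c, hc, fun hthin => ?_⟩
  set x : Fin m → Fin d → ℤ := fun k => Pi.single (c k) 1 with hx
  have hsum : ∀ (h : Matrix (Fin d) (Fin d) ℝ) (j : Fin d) (k : Fin m),
      ∑ l, h j l * (x k l : ℝ) = h j (c k) := by
    intro h j k
    rw [Finset.sum_eq_single (c k)]
    · simp [hx]
    · intro l _ hl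
      simp [hx, Pi.single_eq_of_ne hl]
    · intro h2
      exact absurd (Finset.mem_univ _) h2
  have hO := Q34.CSDThin.isOpen_columns (Y327.Sam h₀ i₀) x
  set O := {h : Matrix (Fin d) (Fin d) ℝ | LinearIndependent ℝ
      (fun k : Fin m => fun j : {j // Y327.Sam h₀ i₀ j} => ∑ l, h j.1 l * (x k l : ℝ))} with hO'
  have hmem : h₁ ∈ O := by
    have h2 : (fun k : Fin m => fun j : {j // Y327.Sam h₀ i₀ j} =>
        ∑ l, h₁ j.1 l * (x k l : ℝ)) = fun k j => h₁ j.1 (c k) := by
      funext k j
      exact hsum _ _ _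
    show LinearIndependent ℝ _
    rw [h2]
    exact hli
  refine hR.not_thin_val (R := Y327.Sam h₀) (fun _ _ => Y327.Sam.symm)
        (fun _ _ _ => Y327.Sam.trans)
    (hU.inter hO) ⟨h₁, ⟨hh₁.1, hmem⟩, hh₁.2⟩ hm hnm (x := x) (fun k h0 => ?_) i₀
    (fun h hh => hh.1.2) (Q34.CSDThin.Thin.subset hthin ?_)
  · have := congrFun h0 (c k)
    simp [hx] at this
  · rintro w ⟨h, hh, rfl⟩
    exact ⟨h, ⟨hh.1.1, hh.2⟩, fun k => rfl⟩

theorem result (d : ℕ) (hd : 3 ≤ d) :
    -- 1. the pieces of a minimal set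
    (∀ g : Matrix (Fin d) (Fin d) ℝ, g.det ≠ 0 → ¬ PropInt g → BoundedBelow g →
      ∀ h₀ ∈ OrbitClosure g, Recurrent h₀ → ∃ s : ℕ, 1 < s ∧ s ∣ d ∧
        ∀ U : Set (Matrix (Fin d) (Fin d) ℝ), IsOpen U → (U ∩ OrbitClosure h₀).Nonempty →
          (∀ n, n + 2 ≤ d * s → ¬ Thin n (rows (U ∩ OrbitClosure h₀))) ∧
          (∀ m n, n < m → m < s → ∃ c : Fin m → Fin d, Function.Injective c ∧
            ¬ Thin n {w : Fin m → ℝ | ∃ h ∈ U ∩ OrbitClosure h₀,
              ∀ k, w k = F h (Pi.single (c k) 1)}) ∧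
          (s = d → ∀ m n, n < m → m < d → ∀ x : Fin m → Fin d → ℤ,
            LinearIndependent ℝ (fun (k : Fin m) (j : Fin d) => (x k j : ℝ)) →
            ¬ Thin n {w : Fin m → ℝ | ∃ h ∈ U ∩ OrbitClosure h₀, ∀ k, w k = F h (x k)})) ∧
    -- 2. criteria
    (∀ g : Matrix (Fin d) (Fin d) ℝ, g.det ≠ 0 → BoundedBelow g →
      (∀ n, d ≤ n → n + 2 ≤ d * d.minFac → (PropInt g ↔ Thin n (rows (OrbitClosure g)))) ∧
      (∀ m n, n < m → m < d.minFac → (PropInt g ↔ Thin n (closure (ValueTuples m g))))) ∧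
    -- 3. the conjecture
    (∀ n, d ≤ n → n + 1 ≤ d * d.minFac →
      ((∀ g : Matrix (Fin d) (Fin d) ℝ, g.det ≠ 0 → BoundedBelow g → PropInt g) ↔
        Thin n (rows {g : Matrix (Fin d) (Fin d) ℝ | g.det ≠ 0 ∧ BoundedBelow g}))) := by
  classical
  have hd0 : 0 < d := by omega
  refine ⟨?_, ?_, ?_⟩
  · rintro g hg hint ⟨ν, hν, hF⟩ h₀ hh₀ hrec
    rw [closure_eq] at hh₀
    have hM := minB_of_recurrent ((recurrent_iff h₀).1 hrec)
    have hMg : closure (H715R2.Orb h₀) ⊆ closure (H715R2.Orb g) :=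
      TH314.CSD.orb_closure_trans hh₀
    obtain ⟨s, hs1, hsd, hR⟩ := Q34.CSDThin.exists_rich hd hg hint hν hF hMg hM
      (subset_closure (H715R2.mem_orb_self h₀))
    rw [closure_eq]
    refine ⟨s, hs1, hsd, fun U hU hUM => ⟨fun n hn => ?_, fun m n hnm hm => ?_, ?_⟩⟩
    · exact hR.not_thin hd0 hU hUM hn
    · exact not_thin_unit hd0 hR hU hUM hm hnm
    · rintro hsd' m n hnm hm x hx hthin
      subst hsd'
      set i₀ : Fin s := ⟨0, hd0⟩ with hi₀
      have hall : ∀ j, Y327.Sam h₀ i₀ j := by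
        have h1 := hR.card i₀
        rw [Nat.card_eq_fintype_card, Fintype.card_subtype] at h1
        have h2 : Finset.univ.filter (fun j => Y327.Sam h₀ i₀ j) = Finset.univ := by
          refine Finset.eq_univ_of_card _ ?_
          rw [h1, Fintype.card_fin]
        intro j
        have h3 : j ∈ Finset.univ.filter (fun j => Y327.Sam h₀ i₀ j) := by
          rw [h2]
          exact Finset.mem_univ j
        exact (Finset.mem_filter.1 h3).2
      refine hR.not_thin_val (R := Y327.Sam h₀) (fun _ _ => Y327.Sam.symm)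
        (fun _ _ _ => Y327.Sam.trans)
        hU hUM hm hnm (x := x) (fun k h0 => ?_) i₀ (fun h hh => ?_)
        (Q34.CSDThin.Thin.subset hthin ?_)
      · refine hx.ne_zero k ?_
        funext j
        rw [h0]
        simp
      · rw [Fintype.linearIndependent_iff]
        intro b hb
        refine Fintype.linearIndependent_iff.1 hx b ?_
        have hu := hR.det h hh.2
        have h1 : h.mulVec (∑ k, b k • (fun j : Fin s => (x k j : ℝ))) = 0 := by
          funext j
          have h2 := congrFun hb ⟨j, hall j⟩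
          rw [Finset.sum_apply] at h2
          simp only [Pi.smul_apply, smul_eq_mul, Pi.zero_apply] at h2
          rw [Pi.zero_apply, ← h2, Matrix.mulVec, dotProduct]
          simp only [Finset.sum_apply, Pi.smul_apply, smul_eq_mul, Finset.mul_sum]
          rw [Finset.sum_comm]
          refine Finset.sum_congr rfl fun k _ => Finset.sum_congr rfl fun l _ => ?_
          ring
        have h2 := congrArg (fun z => h⁻¹.mulVec z) h1
        simp only [Matrix.mulVec_mulVec, Matrix.nonsing_inv_mul _ hu, Matrix.one_mulVec,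
          Matrix.mulVec_zero] at h2
        exact h2
      · rintro w ⟨h, hh, rfl⟩
        exact ⟨h, hh, fun k => rfl⟩
  · rintro g hg ⟨ν, hν, hF⟩
    refine ⟨fun n hdn hn => ?_, fun m n hnm hm => ?_⟩
    · rw [closure_eq]
      constructor
      · intro hP
        refine Q34.CSDThin.Thin.mono hdn (Q34.CSDThin.thin_propInt.subset ?_)
        intro x hx
        have h1 : Matrix.of x ∈ closure (H715R2.Orb g) := hx
        refine ⟨?_, Y327.propInt_closure hd hg hν hF hP h1⟩
        rw [← abs_ne_zero, H715R2.abs_det_closure h1, abs_ne_zero]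
        exact hg
      · intro hthin
        by_contra hint
        obtain ⟨M, hMg, h₀, s, hs, hR⟩ := exists_rich hd hg hint hν hF
        refine hR.not_thin hd0 isOpen_univ (n := n) (by rw [Set.univ_inter]; exact hR.min.ne) ?_ ?_
        · exact hn.trans (Nat.mul_le_mul_left d hs)
        · refine Q34.CSDThin.Thin.subset hthin ?_
          intro x hx
          exact hMg hx.2
    · rw [tuples_eq]
      constructor
      · intro hP
        exact Q34.CSDThin.thin_countable (Q34.CSDThin.countable_tuples hP) n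
      · intro hthin
        by_contra hint
        obtain ⟨M, hMg, h₀, s, hs, hR⟩ := exists_rich hd hg hint hν hF
        obtain ⟨c, hc, hn⟩ := not_thin_unit hd0 hR isOpen_univ
          (by rw [Set.univ_inter]; exact hR.min.ne) (hm.trans_le hs) hnm
        refine hn (Q34.CSDThin.Thin.subset hthin ?_)
        rintro w ⟨h, hh, hw⟩
        have h1 := Q34.CSDThin.val_mem (hMg hh.2) hc
        have h2 : w = Q34.CSDThin.val (fun k => Pi.single (c k) 1) h := funext hw
        rw [h2]
        exact h1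
  · intro n hdn hn
    constructor
    · intro hconj
      refine Q34.CSDThin.Thin.mono hdn (Q34.CSDThin.thin_propInt.subset ?_)
      intro x hx
      exact ⟨hx.1, hconj _ hx.1 hx.2⟩
    · rintro hthin g hg ⟨ν, hν, hF⟩
      by_contra hint
      obtain ⟨M, hMg, h₀, s, hs, hR⟩ := exists_rich hd hg hint hν hF
      refine hR.not_thin_cone hd0 (n := n) (hn.trans (Nat.mul_le_mul_left d hs)) ?_ hthin
      intro c hc h hh
      have hdet : (c • h).det ≠ 0 := by
        rw [Matrix.det_smul]
        refine mul_ne_zero (pow_ne_zero _ hc.ne') ?_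
        rw [← abs_ne_zero, H715R2.abs_det_closure (hMg hh), abs_ne_zero]
        exact hg
      refine ⟨hdet, c ^ d * ν, by positivity, fun x hx => ?_⟩
      have h1 : F (c • h) x = c ^ d * F h x := by
        unfold F
        have h2 : ∀ i, ∑ j, (c • h) i j * (x j : ℝ) = c * ∑ j, h i j * (x j : ℝ) := by
          intro i
          rw [Finset.mul_sum]
          exact Finset.sum_congr rfl fun j _ => by rw [Matrix.smul_apply, smul_eq_mul, mul_assoc]
        simp only [h2, Finset.prod_mul_distrib, Finset.prod_const, Finset.card_univ,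
          Fintype.card_fin]
      have h3 : F (Matrix.of (c • (show Fin d → Fin d → ℝ from h))) x = c ^ d * F h x := h1
      rw [h3, abs_mul, abs_of_pos (pow_pos hc d)]
      exact mul_le_mul_of_nonneg_left (H715R2.hasNu_closure hF (hMg hh) x hx) (by positivity)

end Pool.Agent.Results.MP_edeaa2_an.SmoothThinness
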