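import Mathlib
import Pool.Agent.Q34.CSD.ThinRich
import Pool.Agent.Q222.TD.Ball

/-! # MP_edeaa2_an: values at integer points in sparse sets of directions

Let `d ≥ 3` and let `F g` be the product of the linear forms `l i` given by the rows of `g`. The
position of an integer point `x` is the vector of the numbers `log |l i x|`. If `|F g|` is bounded
away from zero at the nonzero integer points, the positions of the integer points with
`|F g x| < T` are at bounded distance from the hyperplane `∑ s i = 0`. A set `D` of positions is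
called thick if it contains balls of arbitrarily large radii with centres in this hyperplane
(nothing else is assumed: the balls may be very sparse).

1. Let `V, ν > 0` and `T` such that every `h` with `|det h| = V` has `|F h x| < T` for some nonzero
   integer point (for example `d! V < d ^ d T`). There are `c > 0` and `ρ₀` such that for every
   counterexample `g` to the conjecture of Cassels and Swinnerton-Dyer with `|det g| = V` and
   `|F g| ≥ ν`, and every ball of radius `ρ ≥ ρ₀` with centre in the hyperplane, `F g` has at least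
   `c ρ ^ κ` distinct values in `(-T, T)` at integer points with position in the ball. Here
   `κ = (1 - 1 / p) / (d - 1)`, `p` the smallest prime factor of `d` (`κ = 1 / d` if `d` is prime).
2. Let `|F g|` be bounded away from zero at the nonzero integer points and let `D` be thick. Then
   `F g` is proportional to an integral form if and only if the closure of the set of its values
   in `(-T, T)` at the integer points with position in `D` is countable (`T` as in 1. for
   `V = |det g|`), and for `n < m < p` if and only if the closure of the set of the `m`-tuples of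
   its values at `m` members, with positions in `D`, of a basis of `ℤ ^ d` is covered by countably
   many C¹ submanifolds of dimension at most `n`.
3. So, for every thick `D`, the conjecture in dimension `d` is equivalent to: if `|F g|` is bounded
   away from zero, the closure of the set of values at the points with position in `D` is countable.
4. If `h` is recurrent (its orbit closure is minimal) and `|F h|` is bounded away from zero, then for
   every thick `D` and all nonzero integer points `x₁, …, x_m` there are unimodular `γ` such that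
   the positions of all `γ x_k` lie in `D` and the values `F h (γ x_k)` are arbitrarily close to
   `F h x_k`. In particular the values at the points with position in `D` are dense in the set of all
   values at nonzero integer points. -/

set_option autoImplicit false

open Topology

namespace Pool.Agent.Results.MP_edeaa2_an.ThickDirections

variable {d : ℕ}

/-- the product of the linear forms given by the rows of `h`, at an integer point -/
noncomputable def F (h : Matrix (Fin d) (Fin d) ℝ) (x : Fin d → ℤ) : ℝ :=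
  ∏ i : Fin d, ∑ j : Fin d, h i j * (x j : ℝ)

/-- the product of the linear forms is proportional to a form with integer coefficients -/
def PropInt (h : Matrix (Fin d) (Fin d) ℝ) : Prop :=
  ∃ c : ℝ, c ≠ 0 ∧ ∀ m : Fin d →₀ ℕ, ∃ z : ℤ, MvPolynomial.coeff m
    (c • (∏ i : Fin d, ∑ j : Fin d,
      MvPolynomial.C (h i j) * MvPolynomial.X j : MvPolynomial (Fin d) ℝ)) = (z : ℝ)

/-- the product of the linear forms is bounded away from zero at the nonzero integer points -/
def BoundedBelow (h : Matrix (Fin d) (Fin d) ℝ) : Prop :=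
  ∃ ν : ℝ, 0 < ν ∧ ∀ x : Fin d → ℤ, x ≠ 0 → ν ≤ |F h x|

/-- The closure of the set of matrices `diag(a) g γ` with `a` positive of product one and `γ`
integral of determinant `±1`. -/
def OrbitClosure (g : Matrix (Fin d) (Fin d) ℝ) : Set (Matrix (Fin d) (Fin d) ℝ) :=
  closure {h | ∃ (a : Fin d → ℝ) (γ : Matrix (Fin d) (Fin d) ℤ), (∀ i, 0 < a i) ∧ ∏ i, a i = 1 ∧
    |γ.det| = 1 ∧ h = Matrix.diagonal a * g * γ.map (Int.cast : ℤ → ℝ)}

/-- The orbit closure of `h` is minimal. -/
def Recurrent (h : Matrix (Fin d) (Fin d) ℝ) : Prop :=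
  ∀ h' ∈ OrbitClosure h, h ∈ OrbitClosure h'

/-- The position of the integer point `x`: the logarithms of the absolute values of the linear
forms at `x`. -/
noncomputable def pos (g : Matrix (Fin d) (Fin d) ℝ) (x : Fin d → ℤ) (i : Fin d) : ℝ :=
  Real.log |∑ j, g i j * (x j : ℝ)|

/-- `D` contains, for every `R`, a ball of radius `R` (in the maximum norm) with centre in the
hyperplane `∑ s i = 0`. -/
def Thick (D : Set (Fin d → ℝ)) : Prop :=
  ∀ R : ℝ, ∃ s : Fin d → ℝ, ∑ i, s i = 0 ∧ ∀ t : Fin d → ℝ, (∀ i, |t i - s i| ≤ R) → t ∈ D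

/-- The values of `F g` in `(-T, T)` at the nonzero integer points with position in `D`. -/
def Values (g : Matrix (Fin d) (Fin d) ℝ) (D : Set (Fin d → ℝ)) (T : ℝ) : Set ℝ :=
  {t | ∃ x : Fin d → ℤ, x ≠ 0 ∧ pos g x ∈ D ∧ F g x = t ∧ |t| < T}

/-- `T` exceeds the smallest value at a nonzero integer point of every `F h` with `|det h| = V`. -/
def IsLevel (d : ℕ) (V T : ℝ) : Prop :=
  ∀ h : Matrix (Fin d) (Fin d) ℝ, |h.det| = V → ∃ x : Fin d → ℤ, x ≠ 0 ∧ |F h x| < T

/-- the ball with centre `s` and radius `ρ` in the maximum norm -/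
def ball (s : Fin d → ℝ) (ρ : ℝ) : Set (Fin d → ℝ) := {t | ∀ i, |t i - s i| ≤ ρ}

/-- The exponent `(1 - 1 / p) / (d - 1)`, `p` the smallest prime factor of `d`. -/
noncomputable def kappa (d : ℕ) : ℝ := (1 - 1 / (d.minFac : ℝ)) / ((d : ℝ) - 1)

/-- `S` is a C¹ submanifold of dimension at most `n`, the set of zeros in an open set `W` of a C¹
map `φ` to `ℝ ^ r` with surjective derivatives, where `dim V - r ≤ n`. -/
def Piece {V : Type*} [NormedAddCommGroup V] [NormedSpace ℝ V] (n : ℕ) (S : Set V) : Prop :=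
  ∃ (r : ℕ) (W : Set V) (φ : V → Fin r → ℝ), Module.finrank ℝ V ≤ n + r ∧ IsOpen W ∧
    ContDiffOn ℝ 1 φ W ∧ (∀ x ∈ W, Function.Surjective (fderiv ℝ φ x)) ∧
    S = {x | x ∈ W ∧ φ x = 0}

/-- `E` is covered by countably many C¹ submanifolds of dimension at most `n`. -/
def Thin {V : Type*} [NormedAddCommGroup V] [NormedSpace ℝ V] (n : ℕ) (E : Set V) : Prop :=
  ∃ S : ℕ → Set V, (∀ k, Piece n (S k)) ∧ E ⊆ ⋃ k, S k

/-- the `m`-tuples of values of `F g` at `m` different members of a basis of `ℤ ^ d` all of which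
have their position in `D` -/
def ValueTuples (D : Set (Fin d → ℝ)) (m : ℕ) (g : Matrix (Fin d) (Fin d) ℝ) :
    Set (Fin m → ℝ) :=
  {w | ∃ (γ : Matrix (Fin d) (Fin d) ℤ) (c : Fin m → Fin d), |γ.det| = 1 ∧
    Function.Injective c ∧ (∀ k, pos g (fun i => γ i (c k)) ∈ D) ∧
    ∀ k, w k = F g (fun i => γ i (c k))}

lemma closure_eq (g : Matrix (Fin d) (Fin d) ℝ) : OrbitClosure g = closure (H715R2.Orb g) := by
  unfold OrbitClosure H715R2.Orb
  congr 1
  ext h
  constructor
  · rintro ⟨a, γ, ha0, ha1, hγ, hh⟩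
    exact ⟨a, γ, ha0, ha1, Int.isUnit_iff_abs_eq.2 hγ, hh⟩
  · rintro ⟨a, γ, ha0, ha1, hγ, hh⟩
    exact ⟨a, γ, ha0, ha1, Int.isUnit_iff_abs_eq.1 hγ, hh⟩

lemma recurrent_iff (h : Matrix (Fin d) (Fin d) ℝ) :
    Recurrent h ↔ Pool.Agent.TH314.CSD.Recurrent h := by
  unfold Recurrent Pool.Agent.TH314.CSD.Recurrent
  simp only [closure_eq]

lemma pos_eq (g : Matrix (Fin d) (Fin d) ℝ) (x : Fin d → ℤ) : pos g x = Q222.TD.pos g x := rfl

lemma mulVec_single (γ : Matrix (Fin d) (Fin d) ℤ) (c : Fin d) :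
    γ.mulVec (Pi.single c 1) = fun i => γ i c := by
  funext i
  simp

/-- values at unit vectors in a piece of a rich set -/
lemma not_thin_unit (hd : 0 < d) {M : Set (Matrix (Fin d) (Fin d) ℝ)}
    {h₀ : Matrix (Fin d) (Fin d) ℝ} {s : ℕ} (hR : Q34.CSDThin.Rich M (Y327.Sam h₀) s)
    {U : Set (Matrix (Fin d) (Fin d) ℝ)} (hU : IsOpen U) (hne : (U ∩ M).Nonempty) {m n : ℕ}
    (hm : m < s) (hnm : n < m) : ∃ c : Fin m → Fin d, Function.Injective c ∧
      ¬ Thin n {w : Fin m → ℝ | ∃ h ∈ U ∩ M, ∀ k, w k = F h (Pi.single (c k) 1)} := by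
  obtain ⟨h₁, hh₁⟩ := hne
  set i₀ : Fin d := ⟨0, hd⟩ with hi₀
  obtain ⟨c, hc, hli⟩ := Q34.CSDThin.exists_columns (hR.det _ hh₁.2) (Y327.Sam h₀ i₀) (m := m)
    (by rw [hR.card]; exact hm.le)
  refine ⟨c, hc, fun hthin => ?_⟩
  set x : Fin m → Fin d → ℤ := fun k => Pi.single (c k) 1 with hx
  have hsum : ∀ (h : Matrix (Fin d) (Fin d) ℝ) (j : Fin d) (k : Fin m),
      ∑ l, h j l * (x k l : ℝ) = h j (c k) := by
    intro h j k
    rw [Finset.sum_eq_single (c k)]
    · simp [hx]
    · intro l _ hl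
      simp [hx, Pi.single_eq_of_ne hl]
    · intro h2
      exact absurd (Finset.mem_univ _) h2
  have hO := Q34.CSDThin.isOpen_columns (Y327.Sam h₀ i₀) x
  set O := {h : Matrix (Fin d) (Fin d) ℝ | LinearIndependent ℝ
      (fun k : Fin m => fun j : {j // Y327.Sam h₀ i₀ j} => ∑ l, h j.1 l * (x k l : ℝ))} with hO'
  have hmem : h₁ ∈ O := by
    have h2 : (fun k : Fin m => fun j : {j // Y327.Sam h₀ i₀ j} =>
        ∑ l, h₁ j.1 l * (x k l : ℝ)) = fun k j => h₁ j.1 (c k) := by
      funext k j
      exact hsum _ _ _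
    show LinearIndependent ℝ _
    rw [h2]
    exact hli
  refine hR.not_thin_val (R := Y327.Sam h₀) (fun _ _ => Y327.Sam.symm)
        (fun _ _ _ => Y327.Sam.trans)
    (hU.inter hO) ⟨h₁, ⟨hh₁.1, hmem⟩, hh₁.2⟩ hm hnm (x := x) (fun k h0 => ?_) i₀
    (fun h hh => hh.1.2) (Q34.CSDThin.Thin.subset hthin ?_)
  · have := congrFun h0 (c k)
    simp [hx] at this
  · rintro w ⟨h, hh, rfl⟩
    exact ⟨h, ⟨hh.1.1, hh.2⟩, fun k => rfl⟩

/-- the countability criterion -/
lemma countable_iff (hd : 3 ≤ d) {g : Matrix (Fin d) (Fin d) ℝ} (hg : g.det ≠ 0)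
    (hb : BoundedBelow g) {D : Set (Fin d → ℝ)} (hD : Thick D) {T : ℝ}
    (hT : IsLevel d |g.det| T) : PropInt g ↔ (closure (Values g D T)).Countable := by
  obtain ⟨ν, hν, hF⟩ := hb
  constructor
  · intro hP
    refine (H715R2.countable_VV (h := g) hP).mono ?_
    refine closure_mono ?_
    rintro t ⟨x, -, -, hx, -⟩
    exact ⟨x, hx⟩
  · intro hC
    exact Q222.TD.countable_thick hd hg hT hν hF hD hC

lemma exists_level (hd : 3 ≤ d) {V : ℝ} (hV : 0 < V) : ∃ T : ℝ, IsLevel d V T := by
  have h1 : (0 : ℝ) < (d : ℝ) ^ d := by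
    have : (0 : ℝ) < d := by exact_mod_cast (by omega : 0 < d)
    positivity
  refine ⟨((d.factorial : ℝ) * V + 1) / (d : ℝ) ^ d, fun h hh => ?_⟩
  refine H715R2.mink_prod (by omega) V _ hV ?_ h hh
  rw [mul_div_cancel₀ _ h1.ne']
  linarith

theorem result (d : ℕ) (hd : 3 ≤ d) :
    -- 1. distinct values in every ball, uniformly
    (∀ V ν T : ℝ, 0 < V → 0 < ν → IsLevel d V T → ∃ c ρ₀ : ℝ, 0 < c ∧
      ∀ g : Matrix (Fin d) (Fin d) ℝ, |g.det| = V → (∀ x : Fin d → ℤ, x ≠ 0 → ν ≤ |F g x|) →
        ¬ PropInt g → ∀ s : Fin d → ℝ, ∑ i, s i = 0 → ∀ ρ : ℝ, ρ₀ ≤ ρ →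
          (Values g (ball s ρ) T).Finite ∧
          c * ρ ^ kappa d ≤ ((Values g (ball s ρ) T).ncard : ℝ)) ∧
    -- 2. criteria
    (∀ g : Matrix (Fin d) (Fin d) ℝ, g.det ≠ 0 → BoundedBelow g →
      ∀ D : Set (Fin d → ℝ), Thick D →
        (∀ T, IsLevel d |g.det| T → (PropInt g ↔ (closure (Values g D T)).Countable)) ∧
        (∀ m n, n < m → m < d.minFac → (PropInt g ↔ Thin n (closure (ValueTuples D m g))))) ∧
    -- 3. the conjecture
    (∀ D : Set (Fin d → ℝ), Thick D →
      ((∀ g : Matrix (Fin d) (Fin d) ℝ, g.det ≠ 0 → BoundedBelow g → PropInt g) ↔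
        ∀ g : Matrix (Fin d) (Fin d) ℝ, g.det ≠ 0 → BoundedBelow g →
          (closure {t : ℝ | ∃ x : Fin d → ℤ, x ≠ 0 ∧ pos g x ∈ D ∧ F g x = t}).Countable)) ∧
    -- 4. recurrent forms
    (∀ h : Matrix (Fin d) (Fin d) ℝ, h.det ≠ 0 → BoundedBelow h → Recurrent h →
      ∀ D : Set (Fin d → ℝ), Thick D → ∀ (m : ℕ) (x : Fin m → Fin d → ℤ), (∀ k, x k ≠ 0) →
        ∀ ε : ℝ, 0 < ε → ∃ γ : Matrix (Fin d) (Fin d) ℤ, |γ.det| = 1 ∧
          ∀ k, pos h (γ.mulVec (x k)) ∈ D ∧ |F h (γ.mulVec (x k)) - F h (x k)| < ε) := by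
  classical
  have hd0 : 0 < d := by omega
  refine ⟨?_, ?_, ?_, ?_⟩
  · intro V ν T hV hν hT
    obtain ⟨c, ρ₀, hc, hcount⟩ := Q222.TD.count_ball hd hV hν hT
    refine ⟨c, ρ₀, hc, fun g hdet hF hint s hs ρ hρ => ⟨?_, hcount g hdet hF hint s hs ρ hρ⟩⟩
    refine Q222.TD.ballVals_finite ?_ hν hF T s ρ
    intro h0
    rw [h0, abs_zero] at hdet
    exact hV.ne hdet
  · intro g hg hb D hD
    refine ⟨fun T hT => countable_iff hd hg hb hD hT, fun m n hnm hm => ?_⟩
    obtain ⟨ν, hν, hF⟩ := hb
    constructor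
    · intro hP
      have h1 : ValueTuples D m g ⊆ Q34.CSDThin.Tuples m g := by
        rintro w ⟨γ, c, hγ, hc, -, hw⟩
        exact ⟨γ, c, Int.isUnit_iff_abs_eq.2 hγ, hc, hw⟩
      exact Q34.CSDThin.thin_countable ((Q34.CSDThin.countable_tuples hP).mono (closure_mono h1)) n
    · intro hthin
      by_contra hint
      obtain ⟨M, hML, hM⟩ := Y327.exists_minB hd0 id (abs_pos.2 hg) hν
        (Q222.TD.lim_closed g D) (Q222.TD.lim_nonempty hd0 hg hν hF hD)
        (Y327.invB_of_inv (Q222.TD.lim_inv g D) id)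
        (fun _ hh => H715R2.abs_det_closure (Q222.TD.lim_subset g D hh))
        (fun _ hh => H715R2.hasNu_closure hF (Q222.TD.lim_subset g D hh))
      obtain ⟨h₀, hh₀⟩ := hM.ne
      obtain ⟨s, hs1, hsd, hR⟩ := Q34.CSDThin.exists_rich hd hg hint hν hF
        (hML.trans (Q222.TD.lim_subset g D)) hM hh₀
      have hs : d.minFac ≤ s := Nat.minFac_le_of_dvd hs1 hsd
      obtain ⟨c, hc, hn⟩ := not_thin_unit hd0 hR isOpen_univ
        (by rw [Set.univ_inter]; exact hR.min.ne) (hm.trans_le hs) hnm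
      refine hn (Q34.CSDThin.Thin.subset hthin ?_)
      rintro w ⟨h, hh, hw⟩
      rw [mem_closure_iff_nhds]
      intro U hU
      have hnu := H715R2.hasNu_closure hF (Q222.TD.lim_subset g D (hML hh.2))
      have hw' : w = fun k => H715R2.FF h (H715R2.iR (Pi.single (c k) 1)) := funext hw
      rw [hw'] at hU
      have hne : ∀ k, (Pi.single (c k) 1 : Fin d → ℤ) ≠ 0 := by
        intro k h0
        have := congrFun h0 (c k)
        simp at this
      obtain ⟨γ, hγ, hpos, hmem⟩ := Q222.TD.lim_approx (hML hh.2)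
        (fun k : Fin m => (Pi.single (c k) 1 : Fin d → ℤ))
        (fun k i => Q222.TD.row_ne hν hnu (hne k) i) hU
      refine ⟨_, hmem, γ, c, Int.isUnit_iff_abs_eq.1 hγ, hc, fun k => ?_, fun k => ?_⟩
      · have h1 := hpos k
        rw [mulVec_single] at h1
        exact h1
      · show F g (γ.mulVec (Pi.single (c k) 1)) = F g (fun i => γ i (c k))
        rw [mulVec_single]
  · intro D hD
    constructor
    · intro hconj g hg hb
      obtain ⟨ν, hν, hF⟩ := hb
      refine (H715R2.countable_VV (h := g) (hconj g hg ⟨ν, hν, hF⟩)).mono ?_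
      refine closure_mono ?_
      rintro t ⟨x, -, -, hx⟩
      exact ⟨x, hx⟩
    · intro hC g hg hb
      obtain ⟨T, hT⟩ := exists_level hd (abs_pos.2 hg)
      refine (countable_iff hd hg hb hD hT).2 ((hC g hg hb).mono (closure_mono ?_))
      rintro t ⟨x, hx, hp, ht, -⟩
      exact ⟨x, hx, hp, ht⟩
  · rintro h hdet ⟨ν, hν, hF⟩ hrec D hD m x hx ε hε
    have hmem := Q222.TD.mem_lim_self hd0 hdet hν hF ((recurrent_iff h).1 hrec) hD
    have hU : {w : Fin m → ℝ | ∀ k, |w k - F h (x k)| < ε} ∈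
        𝓝 (fun k => H715R2.FF h (H715R2.iR (x k))) := by
      refine IsOpen.mem_nhds ?_ ?_
      · have : {w : Fin m → ℝ | ∀ k, |w k - F h (x k)| < ε} =
            ⋂ k, {w : Fin m → ℝ | |w k - F h (x k)| < ε} := by
          ext w; simp
        rw [this]
        refine isOpen_iInter_of_finite fun k => ?_
        exact isOpen_lt ((continuous_apply k).sub continuous_const).abs continuous_const
      · intro k
        show |H715R2.FF h (H715R2.iR (x k)) - F h (x k)| < ε
        have : H715R2.FF h (H715R2.iR (x k)) = F h (x k) := rfl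
        rw [this, sub_self, abs_zero]
        exact hε
    obtain ⟨γ, hγ, hpos, hval⟩ := Q222.TD.lim_approx hmem x
      (fun k i => Q222.TD.row_ne hν hF (hx k) i) hU
    exact ⟨γ, Int.isUnit_iff_abs_eq.1 hγ, fun k => ⟨hpos k, hval k⟩⟩

end Pool.Agent.Results.MP_edeaa2_an.ThickDirections
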